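import Mathlib
set_option autoImplicit false

namespace Pool.Agent.TH278.DX

variable {G H : Type} [Group G] [NormedAddCommGroup H] [InnerProductSpace ℂ H]

/-- `‖π(g)‖ ≤ c` for all `g`. -/
def Bdd (π : G →* (H →L[ℂ] H)ˣ) (c : ℝ) : Prop :=
  ∀ g : G, ‖((π g : (H →L[ℂ] H)ˣ) : H →L[ℂ] H)‖ ≤ c

/-- There is a `π`-invariant self-adjoint `A` with `m ≤ A ≤ M`. -/
def Inv (π : G →* (H →L[ℂ] H)ˣ) (m M : ℝ) : Prop :=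
  ∃ A : H →L[ℂ] H, (∀ x y : H, inner ℂ (A x) y = inner ℂ x (A y)) ∧
    (∀ x : H, m * ‖x‖ ^ 2 ≤ (inner ℂ (A x) x).re) ∧
    (∀ x : H, (inner ℂ (A x) x).re ≤ M * ‖x‖ ^ 2) ∧
    ∀ (g : G) (x y : H), inner ℂ (A (((π g : (H →L[ℂ] H)ˣ) : H →L[ℂ] H) x))
      (((π g : (H →L[ℂ] H)ˣ) : H →L[ℂ] H) y) = inner ℂ (A x) y

/-- Some invertible `S` with `‖S‖ ‖S⁻¹‖ ≤ κ` makes all `S π(g) S⁻¹` unitary. -/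
def Sim [CompleteSpace H] (π : G →* (H →L[ℂ] H)ˣ) (κ : ℝ) : Prop :=
  ∃ S : (H →L[ℂ] H)ˣ, ‖((S : (H →L[ℂ] H)ˣ) : H →L[ℂ] H)‖ *
      ‖((S⁻¹ : (H →L[ℂ] H)ˣ) : H →L[ℂ] H)‖ ≤ κ ∧
    ∀ g : G, ((S * π g * S⁻¹ : (H →L[ℂ] H)ˣ) : H →L[ℂ] H) ∈ unitary (H →L[ℂ] H)

end Pool.Agent.TH278.DX
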