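import Mathlib
import Pool.Agent.TH278.DX.Defs
set_option autoImplicit false

namespace Pool.Agent.TH278.DX

/-- `G` is amenable: a left-invariant mean on the bounded real functions on `G`. -/
def Amenable (G : Type) [Group G] : Prop :=
  ∃ m : (G → ℝ) → ℝ,
    (∀ f h : G → ℝ, (∃ C, ∀ x, |f x| ≤ C) → (∃ C, ∀ x, |h x| ≤ C) →
      m (fun x => f x + h x) = m f + m h) ∧
    (∀ (r : ℝ) (f : G → ℝ), (∃ C, ∀ x, |f x| ≤ C) → m (fun x => r * f x) = r * m f) ∧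
    (∀ f : G → ℝ, (∃ C, ∀ x, |f x| ≤ C) → (∀ x, 0 ≤ f x) → 0 ≤ m f) ∧
    m (fun _ => 1) = 1 ∧
    ∀ (g : G) (f : G → ℝ), (∃ C, ∀ x, |f x| ≤ C) → m (fun x => f (g⁻¹ * x)) = m f

/-- `f` is a coefficient `g ↦ ⟪η, σ(g) ξ⟫` of a unitary representation with `‖ξ‖ ‖η‖ ≤ b`. -/
def Bn {G : Type} [Group G] (f : G → ℂ) (b : ℝ) : Prop :=
  ∃ (H : Type) (_ : NormedAddCommGroup H) (_ : InnerProductSpace ℂ H) (_ : CompleteSpace H)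
    (σ : G →* (H →L[ℂ] H)ˣ) (ξ η : H),
    (∀ g, ((σ g : (H →L[ℂ] H)ˣ) : H →L[ℂ] H) ∈ unitary (H →L[ℂ] H)) ∧
    (∀ g, f g = inner ℂ η (((σ g : (H →L[ℂ] H)ˣ) : H →L[ℂ] H) ξ)) ∧ ‖ξ‖ * ‖η‖ ≤ b

/-- `f(st) = ⟪y(s), x(t)⟫` with `‖x(t)‖², ‖y(s)‖² ≤ m`. -/
def M2 {G : Type} [Group G] (f : G → ℂ) (m : ℝ) : Prop :=
  ∃ (H : Type) (_ : NormedAddCommGroup H) (_ : InnerProductSpace ℂ H) (_ : CompleteSpace H)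
    (x y : G → H), (∀ t, ‖x t‖ ^ 2 ≤ m) ∧ (∀ s, ‖y s‖ ^ 2 ≤ m) ∧
    ∀ s t, f (s * t) = inner ℂ (y s) (x t)

end Pool.Agent.TH278.DX
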