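import Mathlib
import Pool.Agent.TH278.DX.Defs2
set_option autoImplicit false

namespace Pool.Agent.TH278.DX

/-- Property A: unit vectors `ξ_v ∈ ℓ²(G)`, supported in `v K` with `K` finite, which are almost
equal for neighbours `v, v g` (`g ∈ E`). -/
def PropertyA (G : Type) [Group G] : Prop :=
  ∀ (E : Finset G) (ε : ℝ), 0 < ε → ∃ (K : Finset G) (ξ : G → G → ℝ),
    (∀ v x, ξ v x ≠ 0 → v⁻¹ * x ∈ K) ∧
    (∀ v, ∑ k ∈ K, ξ v (v * k) ^ 2 = 1) ∧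
    ∀ v, ∀ g ∈ E, 1 - ε ≤ ∑ k ∈ K, ξ v (v * k) * ξ (v * g) (v * k)

/-- Finite groups of large girth. -/
def GirthProp : Prop :=
  ∀ (ι : Type) [Fintype ι] [DecidableEq ι] (n : ℕ), ∃ (Q : Type) (_ : Group Q) (_ : Fintype Q) (q : ι → Q),
    ∀ w : FreeGroup ι, w ≠ 1 → w.norm ≤ n → FreeGroup.lift q w ≠ 1

/-- Moments of operators with finite-dimensional coefficients over groups of large girth. -/
def MomentProp : Prop :=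
  ∀ (ι K Q : Type) [Fintype ι] [DecidableEq ι] [Fintype K] [Group Q] [Fintype Q] [DecidableEq K] [DecidableEq Q]
    (q : ι → Q) (p : ℕ), (∀ w : FreeGroup ι, w ≠ 1 → w.norm ≤ 2 * p → FreeGroup.lift q w ≠ 1) →
    ∀ (a : ι → K → K → ℂ) (r : ℝ), 0 ≤ r →
    (∀ z : K → ℂ, ∑ i, ∑ l, ‖∑ k, a i k l * z k‖ ^ 2 ≤ r ^ 2 * ∑ k, ‖z k‖ ^ 2) →
    (∀ z : K → ℂ, ∑ i, ∑ k, ‖∑ l, a i k l * z l‖ ^ 2 ≤ r ^ 2 * ∑ l, ‖z l‖ ^ 2) →
    ∀ S : EuclideanSpace ℂ (Q × K) →L[ℂ] EuclideanSpace ℂ (Q × K),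
    (∀ φ x k, S φ (x, k) = ∑ i, ∑ l, a i k l * φ ((q i)⁻¹ * x, l)) →
    ∀ y : Q × K, (inner ℂ (((ContinuousLinearMap.adjoint S * S) ^ p) (EuclideanSpace.single y 1))
      (EuclideanSpace.single y (1 : ℂ))).re ≤ (2 * r) ^ (2 * p)

/-- Cutting away a small subspace on which the operators are large. -/
def CutProp : Prop :=
  ∀ (J K Q : Type) [Fintype J] [Fintype K] [Fintype Q] [DecidableEq K] [DecidableEq Q]
    (S : J → (EuclideanSpace ℂ (Q × K) →L[ℂ] EuclideanSpace ℂ (Q × K))) (p : ℕ) (r : ℝ), 0 < r →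
    (∀ j y, (inner ℂ (((ContinuousLinearMap.adjoint (S j) * S j) ^ p) (EuclideanSpace.single y 1))
      (EuclideanSpace.single y (1 : ℂ))).re ≤ (2 * r) ^ (2 * p)) →
    ∃ M : Submodule ℂ (EuclideanSpace ℂ Q),
      (Module.finrank ℂ M : ℝ) ≤
        Fintype.card J * Fintype.card K ^ 2 * (2 / 3) ^ (2 * p) * Fintype.card Q ∧
      ∀ j (φ : EuclideanSpace ℂ (Q × K)),
        (∀ l, (WithLp.toLp 2 fun x => φ (x, l) : EuclideanSpace ℂ Q) ∈ Mᗮ) →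
        ‖S j φ‖ ≤ 3 * r * ‖φ‖

/-- Khintchine type inequality with matrices `Y i` for finitely many finite-dimensional
coefficient families. -/
def KhintchineProp : Prop :=
  ∀ (ι K J : Type) [Fintype ι] [Fintype K] [Fintype J]
    (a : J → ι → K → K → ℂ) (r ε : ℝ), 0 < r → 0 < ε →
    (∀ j (z : K → ℂ), ∑ i, ∑ l, ‖∑ k, a j i k l * z k‖ ^ 2 ≤ r ^ 2 * ∑ k, ‖z k‖ ^ 2) →
    (∀ j (z : K → ℂ), ∑ i, ∑ k, ‖∑ l, a j i k l * z l‖ ^ 2 ≤ r ^ 2 * ∑ l, ‖z l‖ ^ 2) →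
    ∃ (Q : Type) (_ : Fintype Q) (_ : DecidableEq Q) (_ : Nonempty Q)
      (Y : ι → (EuclideanSpace ℂ Q →L[ℂ] EuclideanSpace ℂ Q)),
      (∀ i, ‖Y i‖ ≤ 1) ∧
      (∀ i, (1 - ε) * Fintype.card Q ≤ ∑ b : Q, ‖Y i (EuclideanSpace.single b 1)‖ ^ 2) ∧
      ∀ j (φ : K → EuclideanSpace ℂ Q),
        ∑ k, ‖∑ i, ∑ l, a j i k l • Y i (φ l)‖ ^ 2 ≤ (3 * r) ^ 2 * ∑ l, ‖φ l‖ ^ 2

end Pool.Agent.TH278.DX
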