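import Mathlib
import Pool.Agent.TH278.DX.Defs2
import Pool.Agent.TH582.J4943
import Pool.Agent.TH16.J4944
import Pool.Agent.TH318.J4947
import Pool.Agent.TH542.J4948
import Pool.Agent.TH113.J4949.Excessive
import Pool.Agent.TH989.J4950
import Pool.Agent.TH48.J4951
import Pool.Agent.TH667.J4952
import Pool.Agent.TH228.J4953
import Pool.Agent.TH475.J4954
set_option autoImplicit false

namespace Pool.Agent.TH278.DX

open Pool.Agent.TH582.J4943 (factor)
open Pool.Agent.TH16.J4944 (form)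
open Pool.Agent.TH542.J4948 (kesten)
open Pool.Agent.TH113.J4949 (excessive)
open Pool.Agent.TH989.J4950 (m2_of_excessive)
open Pool.Agent.TH48.J4951 (lower)
open Pool.Agent.TH667.J4952 (signs)
open Pool.Agent.TH475.J4954 (bn_fin)

/-- All unitarizable representations bounded by `c` have an invariant `A` with `1 ≤ A ≤ M`. -/
def GoodU (G : Type) [Group G] (c M : ℝ) : Prop :=
  ∀ (H : Type) [NormedAddCommGroup H] [InnerProductSpace ℂ H] [CompleteSpace H]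
      (π : G →* (H →L[ℂ] H)ˣ), (∃ M : ℝ, Inv π 1 M) → Bdd π c → Inv π 1 M

theorem Bn.mono {G : Type} [Group G] {f : G → ℂ} {b b' : ℝ} (h : Bn f b) (hb : b ≤ b') :
    Bn f b' := by
  obtain ⟨H, i1, i2, i3, σ, ξ, η, h1, h2, h3⟩ := h
  exact ⟨H, i1, i2, i3, σ, ξ, η, h1, h2, h3.trans hb⟩

/-- One improvement step for the norm of a coefficient. -/
theorem improve {G : Type} [Group G] (a c : ℝ) (ha : 0 ≤ a) (hc : 2 ≤ c)
    (hgood : GoodU G c (c ^ (2 * a))) (f : G → ℂ) (m b : ℝ) (hm : 0 < m) (hb : 0 ≤ b)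
    (hM : M2 f m) (hB : Bn f b) : Bn f (c ^ a * (5 * m + 10 * b / c ^ 3)) := by
  obtain ⟨H, i1, i2, i3, σ, ξ, η, hσ, hf, hξη⟩ := hB
  obtain ⟨H2, j1, j2, j3, x, y, hx, hy, hxy⟩ := hM
  have hc0 : 0 < c := by linarith
  have hca : 0 ≤ c ^ a := Real.rpow_nonneg hc0.le _
  have htgt : 0 ≤ c ^ a * (5 * m + 10 * b / c ^ 3) := by positivity
  by_cases hη : η = 0
  · refine ⟨H, i1, i2, i3, σ, 0, 0, hσ, fun g => ?_, ?_⟩
    · rw [hf g, hη]
      simp
    · simpa using htgt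
  have he : 0 < ‖η‖ := norm_pos_iff.2 hη
  obtain ⟨H3, k1, k2, k3, R, z, η', hη', hsame, hR1, hR2, hz, hzR⟩ :=
    factor σ hσ ξ η m hm x y hx hy (fun s t => by rw [← hxy, hf])
  obtain ⟨K, l1, l2, l3, τ, ζ, ω, A, δ, hτ, hδ, hA, hlow, hcontr, hζ, hω, hcoef⟩ :=
    form σ hσ ξ η' R z m b ‖η‖ c hm he hc hξη hR1 hR2 hz hzR
  have hC2 : 0 ≤ 20 * m ^ 2 + 96 * b ^ 2 / c ^ 6 := by positivity
  have h1c : 1 ≤ c := by linarith
  have h5 := newfactor τ hτ ζ ω A δ c (20 * m ^ 2 + 96 * b ^ 2 / c ^ 6) (c ^ (2 * a)) hδ h1c hC2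
    (Real.one_le_rpow h1c (by positivity)) hA hlow hcontr hζ hω hgood
  have h6 : (fun g => inner ℂ ω (((τ g : (K →L[ℂ] K)ˣ) : K →L[ℂ] K) ζ)) = f := by
    funext g
    rw [hcoef, hsame, hf]
  rw [h6] at h5
  apply h5.mono
  have h7 : c ^ (2 * a) = (c ^ a) ^ 2 := by
    rw [← Real.rpow_natCast, ← Real.rpow_mul hc0.le]
    congr 1
    push_cast
    ring
  have h8 : 20 * m ^ 2 + 96 * b ^ 2 / c ^ 6 ≤ (5 * m + 10 * b / c ^ 3) ^ 2 := by
    have e1 : (5 * m + 10 * b / c ^ 3) ^ 2 =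
        25 * m ^ 2 + 100 * m * (b / c ^ 3) + 100 * b ^ 2 / c ^ 6 := by
      field_simp
      ring
    rw [e1]
    have e2 : 0 ≤ 100 * m * (b / c ^ 3) := by positivity
    have e3 : 96 * b ^ 2 / c ^ 6 ≤ 100 * b ^ 2 / c ^ 6 := by
      apply div_le_div_of_nonneg_right _ (by positivity)
      nlinarith [sq_nonneg b]
    nlinarith [sq_nonneg m]
  rw [h7]
  have h9 : (c ^ a) ^ 2 * (20 * m ^ 2 + 96 * b ^ 2 / c ^ 6) ≤
      (c ^ a * (5 * m + 10 * b / c ^ 3)) ^ 2 := by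
    rw [mul_pow]
    exact mul_le_mul_of_nonneg_left h8 (by positivity)
  calc Real.sqrt ((c ^ a) ^ 2 * (20 * m ^ 2 + 96 * b ^ 2 / c ^ 6))
      ≤ Real.sqrt ((c ^ a * (5 * m + 10 * b / c ^ 3)) ^ 2) := Real.sqrt_le_sqrt h9
    _ = c ^ a * (5 * m + 10 * b / c ^ 3) := Real.sqrt_sq htgt

/-- The comparison of the norm in `B(G)` with the Herz-Schur norm. -/
theorem compare {G : Type} [Group G] (a : ℝ) (ha : 0 ≤ a) (ha3 : a < 3)
    (hgood : ∀ c : ℝ, 1 ≤ c → GoodU G c (c ^ (2 * a))) :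
    ∃ C : ℝ, 0 < C ∧ ∀ (f : G → ℂ) (m : ℝ), 0 < m → M2 f m → (∃ b, Bn f b) → Bn f (C * m) := by
  -- choose c with 10 c^(a-3) ≤ 1/2
  obtain ⟨c, hc2, hc⟩ : ∃ c : ℝ, 2 ≤ c ∧ 10 * c ^ a / c ^ 3 ≤ 1 / 2 := by
    have h1 : Filter.Tendsto (fun c : ℝ => c ^ (-(3 - a))) Filter.atTop (nhds 0) :=
      tendsto_rpow_neg_atTop (by linarith)
    have h2 := (h1.eventually (gt_mem_nhds (show (0 : ℝ) < 1 / 20 by norm_num))).and
      (Filter.eventually_ge_atTop (2 : ℝ))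
    obtain ⟨c, hc, hc2⟩ := h2.exists
    refine ⟨c, hc2, ?_⟩
    have hc0 : 0 < c := by linarith
    have h3 : c ^ (-(3 - a)) = c ^ a / c ^ 3 := by
      rw [neg_sub, Real.rpow_sub hc0]
      norm_cast
    rw [h3] at hc
    rw [mul_div_assoc]
    linarith
  have hc0 : 0 < c := by linarith
  have hca : 0 < c ^ a := Real.rpow_pos_of_pos hc0 _
  refine ⟨20 * c ^ a, by positivity, fun f m hm hM hB => ?_⟩
  set S : Set ℝ := {b | 0 ≤ b ∧ Bn f b} with hS
  have hne : S.Nonempty := by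
    obtain ⟨b, hb⟩ := hB
    exact ⟨max 0 b, le_max_left _ _, hb.mono (le_max_right _ _)⟩
  have hbd : BddBelow S := ⟨0, fun b hb => hb.1⟩
  have hs0 : 0 ≤ sInf S := le_csInf hne fun b hb => hb.1
  have hstep : ∀ b ∈ S, sInf S ≤ c ^ a * (5 * m + 10 * b / c ^ 3) := by
    intro b hb
    apply csInf_le hbd
    have h1 : 0 ≤ b := hb.1
    refine ⟨by positivity, improve a c ha hc2 (hgood c (by linarith)) f m b hm hb.1 hM hb.2⟩
  have hineq : sInf S ≤ 5 * c ^ a * m + (1 / 2) * sInf S := by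
    have h1 : ∀ b ∈ S, sInf S ≤ 5 * c ^ a * m + (1 / 2) * b := by
      intro b hb
      have h2 := hstep b hb
      have h3 : c ^ a * (5 * m + 10 * b / c ^ 3) = 5 * c ^ a * m + (10 * c ^ a / c ^ 3) * b := by
        ring
      rw [h3] at h2
      have h4 := mul_le_mul_of_nonneg_right hc hb.1
      linarith
    have h5 : ∀ b ∈ S, 2 * (sInf S - 5 * c ^ a * m) ≤ b := by
      intro b hb
      have := h1 b hb
      linarith
    have h6 := le_csInf hne h5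
    linarith
  have hlt : sInf S < 20 * c ^ a * m := by
    have : 0 < c ^ a * m := by positivity
    nlinarith
  obtain ⟨b, hb, hb'⟩ := (csInf_lt_iff hbd hne).1 hlt
  exact hb.2.mono hb'.le

/-- A group whose similarity exponent for unitarizable representations is less than `3` is
amenable. -/
theorem amenable_of_exponent {G : Type} [Group G] (a : ℝ) (ha : 0 ≤ a) (ha3 : a < 3)
    (hgood : ∀ c : ℝ, 1 ≤ c → GoodU G c (c ^ (2 * a))) : Amenable G := by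
  classical
  by_contra hG
  obtain ⟨C, hC, hcomp⟩ := compare a ha ha3 hgood
  -- choose δ with C * (2 * √(2 δ)) < 1 / √6, i.e. small
  obtain ⟨δ, hδ, hδ'⟩ : ∃ δ : ℝ, 0 < δ ∧ C * (2 * Real.sqrt (2 * δ)) < 1 / 4 := by
    refine ⟨1 / (2 * (16 * C) ^ 2), by positivity, ?_⟩
    have e1 : 2 * (1 / (2 * (16 * C) ^ 2)) = (1 / (16 * C)) ^ 2 := by
      field_simp
    rw [e1, Real.sqrt_sq (by positivity)]
    have e2 : C * (2 * (1 / (16 * C))) = 1 / 8 := by
      field_simp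
      norm_num
    rw [e2]
    norm_num
  obtain ⟨F, T, hF0, hFs, hF1, hT, hTF⟩ := kesten hG δ hδ
  obtain ⟨h, hh0, hh⟩ := excessive F hF0 hFs T δ hδ hT hTF
  set E : Finset G := F.support with hE
  obtain ⟨ε, hε, hsum⟩ := signs (fun g => Real.sqrt (F g)) E
  set f : G → ℝ := fun g => ε g * Real.sqrt (F g) with hf
  have hfE : ∀ g, g ∉ E → f g = 0 := by
    intro g hg
    have : F g = 0 := by simpa [hE] using hg
    simp [hf, this]
  have hfsq : ∀ g, f g ^ 2 = F g := by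
    intro g
    have h1 : ε g ^ 2 = 1 := by
      rcases hε g with h2 | h2 <;> rw [h2] <;> norm_num
    simp only [hf, mul_pow, h1, one_mul]
    exact Real.sq_sqrt (hF0 g)
  have hM : M2 (fun g => ((f g : ℝ) : ℂ)) (2 * Real.sqrt (2 * δ)) := by
    apply m2_of_excessive F hF0 hFs h (2 * δ) (by positivity) hh0 hh
    intro g
    rw [Complex.norm_real, Real.norm_eq_abs, sq_abs, hfsq]
  have hsq : 0 < 2 * Real.sqrt (2 * δ) := by positivity
  have hBn := hcomp _ _ hsq hM (bn_fin f E hfE)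
  obtain ⟨H, i1, i2, i3, σ, ξ, η, hσ, hcoef, hnorm⟩ := hBn
  have hlow := lower σ hσ ξ η f E hfE hcoef (1 / 6) (by norm_num)
  have hF1' : ∑ g ∈ E, f g ^ 2 = 1 := by
    rw [← hF1, Finsupp.sum]
    exact Finset.sum_congr rfl fun g _ => hfsq g
  have hF2 : ∑ g ∈ E, Real.sqrt (F g) ^ 2 = 1 := by
    rw [← hF1, Finsupp.sum]
    exact Finset.sum_congr rfl fun g _ => Real.sq_sqrt (hF0 g)
  have hquad : ∑ k ∈ E, ∑ l ∈ E, ∑ k' ∈ E, ∑ l' ∈ E,
      (if k⁻¹ * l = k'⁻¹ * l' then f k * f l * f k' * f l' else 0) ≤ 3 := by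
    have := hsum
    simp only [hF2] at this
    norm_num at this
    simpa [hf] using this
  have h6 : ‖ξ‖ * ‖η‖ < 1 / 4 := hnorm.trans_lt hδ'
  have h7 : (1 : ℝ) / 3 ≤ Real.sqrt (1 / 6) := by
    apply Real.le_sqrt_of_sq_le
    norm_num
  have h8 : ‖ξ‖ * ‖η‖ / (2 * Real.sqrt (1 / 6)) ≤ (1 / 4) / (2 * (1 / 3)) := by
    apply div_le_div₀ (by norm_num) h6.le (by norm_num)
    linarith
  rw [hF1'] at hlow
  have h9 : (1 / 4 : ℝ) / (2 * (1 / 3)) = 3 / 8 := by norm_num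
  rw [h9] at h8
  linarith

end Pool.Agent.TH278.DX
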