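import Mathlib
import Pool.Agent.TH278.DX.Defs
set_option autoImplicit false

namespace Pool.Agent.TH278.DX

variable {G H : Type} [Group G] [NormedAddCommGroup H] [InnerProductSpace ℂ H]

theorem Inv.mono {π : G →* (H →L[ℂ] H)ˣ} {m M M' : ℝ} (h : Inv π m M) (hM : M ≤ M') :
    Inv π m M' := by
  obtain ⟨A, h1, h2, h3, h4⟩ := h
  exact ⟨A, h1, h2, fun x => (h3 x).trans (mul_le_mul_of_nonneg_right hM (sq_nonneg _)), h4⟩

theorem Inv.scale {π : G →* (H →L[ℂ] H)ˣ} {m M : ℝ} (h : Inv π m M) (t : ℝ) (ht : 0 ≤ t) :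
    Inv π (t * m) (t * M) := by
  obtain ⟨A, h1, h2, h3, h4⟩ := h
  refine ⟨((t : ℝ) : ℂ) • A, fun x y => ?_, fun x => ?_, fun x => ?_, fun g x y => ?_⟩
  · simp only [smul_apply, inner_smul_left, inner_smul_right, Complex.conj_ofReal,
      h1]
  · simp only [smul_apply, inner_smul_left, Complex.conj_ofReal,
      Complex.re_ofReal_mul]
    have := mul_le_mul_of_nonneg_left (h2 x) ht
    linarith
  · simp only [smul_apply, inner_smul_left, Complex.conj_ofReal,
      Complex.re_ofReal_mul]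
    have := mul_le_mul_of_nonneg_left (h3 x) ht
    linarith
  · simp only [smul_apply, inner_smul_left, Complex.conj_ofReal, h4]

theorem inv_of_form [CompleteSpace H] {π : G →* (H →L[ℂ] H)ˣ} {m M : ℝ} (A : H →L[ℂ] H)
    (h2 : ∀ x : H, m * ‖x‖ ^ 2 ≤ (inner ℂ (A x) x).re)
    (h3 : ∀ x : H, (inner ℂ (A x) x).re ≤ M * ‖x‖ ^ 2)
    (h4 : ∀ (g : G) (x y : H), inner ℂ (A (((π g : (H →L[ℂ] H)ˣ) : H →L[ℂ] H) x))
      (((π g : (H →L[ℂ] H)ˣ) : H →L[ℂ] H) y) = inner ℂ (A x) y) : Inv π m M := by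
  have key : ∀ x : H, (inner ℂ ((((1 / 2 : ℝ) : ℂ) • (A + ContinuousLinearMap.adjoint A)) x) x).re =
      (inner ℂ (A x) x).re := by
    intro x
    simp only [smul_apply, add_apply, inner_smul_left,
      Complex.conj_ofReal, Complex.re_ofReal_mul, inner_add_left, Complex.add_re,
      ContinuousLinearMap.adjoint_inner_left]
    have : (inner ℂ x (A x)).re = (inner ℂ (A x) x).re := by
      rw [← inner_conj_symm, Complex.conj_re]
    rw [this]; ring
  have h4' : ∀ (g : G) (x y : H), inner ℂ (((π g : (H →L[ℂ] H)ˣ) : H →L[ℂ] H) x)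
      (A (((π g : (H →L[ℂ] H)ˣ) : H →L[ℂ] H) y)) = inner ℂ x (A y) := by
    intro g x y
    rw [← inner_conj_symm, h4, inner_conj_symm]
  refine ⟨((1 / 2 : ℝ) : ℂ) • (A + ContinuousLinearMap.adjoint A), fun x y => ?_,
    fun x => ?_, fun x => ?_, fun g x y => ?_⟩
  · simp only [smul_apply, add_apply, inner_smul_left,
      inner_smul_right, Complex.conj_ofReal, inner_add_left, inner_add_right,
      ContinuousLinearMap.adjoint_inner_left, ContinuousLinearMap.adjoint_inner_right]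
    ring
  · rw [key]; exact h2 x
  · rw [key]; exact h3 x
  · simp only [smul_apply, add_apply, inner_smul_left,
      Complex.conj_ofReal, inner_add_left, ContinuousLinearMap.adjoint_inner_left, h4, h4']

end Pool.Agent.TH278.DX
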