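import Mathlib
import Pool.Agent.TH278.DX.Basic
import Pool.Agent.TH858.J4632
import Pool.Agent.TH620.J4638
import Pool.Agent.TH106.J4648
import Pool.Agent.TH993.J4772
import Pool.Agent.TH576.J4447
import Pool.Agent.TH720.J4452
set_option autoImplicit false

namespace Pool.Agent.TH278.DX

open Pool.Agent.TH720.J4452 (inv_closed)
open Pool.Agent.TH278.DX.J4632 (descent)
open Pool.Agent.TH620.J4638 (dist_selfadjoint)
open Pool.Agent.TH106.J4648 (dist_all)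
open Pool.Agent.TH993.DX (dist_of_uniform)

/-- `dist(T, σ(G)') ≤ K d` whenever `‖σ(g) T - T σ(g)‖ ≤ d` for all `g`, for all unitary
representations `σ` of `G` and all operators `T`. -/
def DistanceBound (G : Type) [Group G] (K : ℝ) : Prop :=
  ∀ (H : Type) [NormedAddCommGroup H] [InnerProductSpace ℂ H] [CompleteSpace H]
    (σ : G →* (H →L[ℂ] H)ˣ), (∀ g, ((σ g : (H →L[ℂ] H)ˣ) : H →L[ℂ] H) ∈ unitary (H →L[ℂ] H)) →
    ∀ (T : H →L[ℂ] H) (d : ℝ),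
    (∀ g, ‖((σ g : (H →L[ℂ] H)ˣ) : H →L[ℂ] H) * T - T * ((σ g : (H →L[ℂ] H)ˣ) : H →L[ℂ] H)‖ ≤ d) →
    Metric.infDist T {C : H →L[ℂ] H | ∀ g, C * ((σ g : (H →L[ℂ] H)ˣ) : H →L[ℂ] H) =
      ((σ g : (H →L[ℂ] H)ˣ) : H →L[ℂ] H) * C} ≤ K * d

section

variable {G H : Type} [Group G] [NormedAddCommGroup H] [InnerProductSpace ℂ H] [CompleteSpace H]

theorem inner_unitary {U : H →L[ℂ] H} (hU : U ∈ unitary (H →L[ℂ] H)) (x y : H) :
    inner ℂ (U x) (U y) = inner ℂ x y := by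
  have h1 : star U * U = 1 := (Unitary.mem_iff.1 hU).1
  rw [← ContinuousLinearMap.adjoint_inner_right, ← ContinuousLinearMap.star_eq_adjoint]
  have h2 : (star U) (U y) = y := congrArg (fun T : H →L[ℂ] H => T y) h1
  rw [h2]

/-- From the distance bound to the similarity constant. -/
theorem inv_of_dist (K : ℝ) (hK : 0 ≤ K) (hD : DistanceBound G K) (π : G →* (H →L[ℂ] H)ˣ)
    (M₀ : ℝ) (h0 : Inv π 1 M₀) (c : ℝ) (hc : 1 ≤ c)
    (hπ : ∀ g : G, ‖((π g : (H →L[ℂ] H)ˣ) : H →L[ℂ] H)‖ ≤ c) : Inv π 1 (c ^ (4 * K)) := by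
  set S : Set ℝ := {M | 1 ≤ M ∧ Inv π 1 M} with hS
  have hne : S.Nonempty := ⟨max 1 M₀, le_max_left _ _, h0.mono (le_max_right _ _)⟩
  have hbd : BddBelow S := ⟨1, fun M hM => hM.1⟩
  have hm1 : 1 ≤ sInf S := le_csInf hne fun M hM => hM.1
  have hatt : Inv π 1 (sInf S) := by
    apply inv_closed
    intro M' hM'
    obtain ⟨M, hM, hMM'⟩ := (csInf_lt_iff hbd hne).1 hM'
    exact hM.2.mono hMM'.le
  set m := sInf S with hm
  by_cases hcm : m ≤ c ^ (4 * K)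
  · exact hatt.mono hcm
  exfalso
  push Not at hcm
  have hc0 : 0 < c := by linarith
  have hcK : 1 ≤ c ^ (4 * K) := Real.one_le_rpow hc (by positivity)
  have hm1' : 1 < m := hcK.trans_lt hcm
  have hlog : 4 * K * Real.log c < Real.log m := by
    have := Real.log_lt_log (by linarith) hcm
    rwa [Real.log_rpow hc0] at this
  obtain ⟨A, a1, a2, a3, a4⟩ := hatt
  obtain ⟨R, B, r1, b1, hT, hC⟩ := descent A m hm1' a1 a2 a3
  let σ : G →* (H →L[ℂ] H)ˣ := (MulAut.conj R).toMonoidHom.comp π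
  have hσv : ∀ g, σ g = R * π g * R⁻¹ := fun g => rfl
  have hσ : ∀ g, ((σ g : (H →L[ℂ] H)ˣ) : H →L[ℂ] H) ∈ unitary (H →L[ℂ] H) ∧
      ‖((σ g : (H →L[ℂ] H)ˣ) : H →L[ℂ] H) * B - B * ((σ g : (H →L[ℂ] H)ˣ) : H →L[ℂ] H)‖
        ≤ Real.log c := by
    intro g
    rw [hσv]
    refine hT (π g) c hc (hπ g) ?_ (a4 g)
    rw [← map_inv]
    exact hπ g⁻¹
  have hdist := hD H σ (fun g => (hσ g).1) B (Real.log c) (fun g => (hσ g).2)
  have hlt : Metric.infDist B {C : H →L[ℂ] H | ∀ g, C * ((σ g : (H →L[ℂ] H)ˣ) : H →L[ℂ] H) =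
      ((σ g : (H →L[ℂ] H)ˣ) : H →L[ℂ] H) * C} < Real.log m / 4 := by
    refine hdist.trans_lt ?_
    linarith
  have hne' : ({C : H →L[ℂ] H | ∀ g, C * ((σ g : (H →L[ℂ] H)ˣ) : H →L[ℂ] H) =
      ((σ g : (H →L[ℂ] H)ˣ) : H →L[ℂ] H) * C}).Nonempty := ⟨0, fun g => by simp⟩
  obtain ⟨C', hC'm, hC'⟩ := (Metric.infDist_lt_iff hne').1 hlt
  have hC'm : ∀ g, C' * ((σ g : (H →L[ℂ] H)ˣ) : H →L[ℂ] H) =
      ((σ g : (H →L[ℂ] H)ˣ) : H →L[ℂ] H) * C' := hC'm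
  have hstar : ∀ g, star (((σ g : (H →L[ℂ] H)ˣ)) : H →L[ℂ] H) =
      (((σ g⁻¹ : (H →L[ℂ] H)ˣ)) : H →L[ℂ] H) := by
    intro g
    have h1 := (Unitary.mem_iff.1 (hσ g).1).1
    have h2 : (((σ g : (H →L[ℂ] H)ˣ)) : H →L[ℂ] H) * (((σ g⁻¹ : (H →L[ℂ] H)ˣ)) : H →L[ℂ] H) = 1 := by
      rw [map_inv]
      exact (σ g).mul_inv
    calc star (((σ g : (H →L[ℂ] H)ˣ)) : H →L[ℂ] H)
        = star (((σ g : (H →L[ℂ] H)ˣ)) : H →L[ℂ] H) *
          ((((σ g : (H →L[ℂ] H)ˣ)) : H →L[ℂ] H) * (((σ g⁻¹ : (H →L[ℂ] H)ˣ)) : H →L[ℂ] H)) := by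
          rw [h2, mul_one]
      _ = _ := by rw [← mul_assoc, h1, one_mul]
  have hC's : ∀ g, star C' * ((σ g : (H →L[ℂ] H)ˣ) : H →L[ℂ] H) =
      ((σ g : (H →L[ℂ] H)ˣ) : H →L[ℂ] H) * star C' := by
    intro g
    have h1 := congrArg star (hC'm g⁻¹)
    rw [star_mul, star_mul, hstar, inv_inv] at h1
    exact h1.symm
  set C : H →L[ℂ] H := ((1 / 2 : ℝ) : ℂ) • (C' + star C') with hCdef
  have hCm : ∀ g, C * ((σ g : (H →L[ℂ] H)ˣ) : H →L[ℂ] H) =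
      ((σ g : (H →L[ℂ] H)ˣ) : H →L[ℂ] H) * C := by
    intro g
    rw [hCdef, smul_mul_assoc, mul_smul_comm, add_mul, mul_add, hC'm, hC's]
  have hBs : star B = B := by
    rw [ContinuousLinearMap.star_eq_adjoint]
    apply ContinuousLinearMap.ext
    intro x
    apply ext_inner_right ℂ
    intro y
    rw [ContinuousLinearMap.adjoint_inner_left, b1]
  have hCs : star C = C := by
    rw [hCdef, star_smul, star_add, star_star, add_comm]
    congr 1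
    simp
  have hCself : ∀ x y : H, inner ℂ (C x) y = inner ℂ x (C y) := by
    intro x y
    rw [← ContinuousLinearMap.adjoint_inner_right, ← ContinuousLinearMap.star_eq_adjoint, hCs]
  have hBC : ‖B - C‖ ≤ ‖B - C'‖ := by
    have h1 : B - C = ((1 / 2 : ℝ) : ℂ) • ((B - C') + star (B - C')) := by
      rw [hCdef, star_sub, hBs]
      have : B = ((1 / 2 : ℝ) : ℂ) • (B + B) := by
        rw [← two_smul ℂ B, smul_smul]
        norm_num
      nth_rewrite 1 [this]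
      rw [← smul_sub]
      congr 1
      abel
    rw [h1, norm_smul]
    have h2 := norm_add_le (B - C') (star (B - C'))
    rw [norm_star] at h2
    have h3 : ‖(((1 / 2 : ℝ)) : ℂ)‖ = 1 / 2 := by
      rw [Complex.norm_real]
      norm_num
    rw [h3]
    linarith
  have h4 : 4 * ‖B - C‖ < Real.log m := by
    rw [dist_eq_norm] at hC'
    linarith
  obtain ⟨α, β, m', hm', hE⟩ := hC C hCself h4
  set E : H →L[ℂ] H := ((α : ℝ) : ℂ) • (1 : H →L[ℂ] H) + ((β : ℝ) : ℂ) • C with hEdef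
  have hEm : ∀ g x, E (((σ g : (H →L[ℂ] H)ˣ) : H →L[ℂ] H) x) =
      ((σ g : (H →L[ℂ] H)ˣ) : H →L[ℂ] H) (E x) := by
    intro g x
    have h1 : E * ((σ g : (H →L[ℂ] H)ˣ) : H →L[ℂ] H) =
        ((σ g : (H →L[ℂ] H)ˣ) : H →L[ℂ] H) * E := by
      rw [hEdef, add_mul, mul_add, smul_mul_assoc, smul_mul_assoc, mul_smul_comm, mul_smul_comm,
        hCm, one_mul, mul_one]
    exact congrArg (fun T : H →L[ℂ] H => T x) h1
  have hR : ∀ g x, (R : H →L[ℂ] H) (((π g : (H →L[ℂ] H)ˣ) : H →L[ℂ] H) x) =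
      ((σ g : (H →L[ℂ] H)ˣ) : H →L[ℂ] H) ((R : H →L[ℂ] H) x) := by
    intro g x
    rw [hσv]
    have : ((R⁻¹ : (H →L[ℂ] H)ˣ) : H →L[ℂ] H) ((R : H →L[ℂ] H) x) = x := by
      have h5 : ((R⁻¹ : (H →L[ℂ] H)ˣ) : H →L[ℂ] H) * (R : H →L[ℂ] H) = 1 := R.inv_mul
      exact congrArg (fun T : H →L[ℂ] H => T x) h5
    change _ = (R : H →L[ℂ] H) (((π g : (H →L[ℂ] H)ˣ) : H →L[ℂ] H)
      (((R⁻¹ : (H →L[ℂ] H)ˣ) : H →L[ℂ] H) ((R : H →L[ℂ] H) x)))
    rw [this]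
  have hin : ∀ x y : H, inner ℂ (((R : H →L[ℂ] H) ∘L E ∘L (R : H →L[ℂ] H)) x) y =
      inner ℂ (E ((R : H →L[ℂ] H) x)) ((R : H →L[ℂ] H) y) := by
    intro x y
    simp only [ContinuousLinearMap.comp_apply]
    rw [r1]
  have hnew : Inv π 1 m' := by
    apply inv_of_form ((R : H →L[ℂ] H) ∘L E ∘L (R : H →L[ℂ] H))
    · intro x
      rw [hin, one_mul]
      exact (hE x).1
    · intro x
      rw [hin]
      exact (hE x).2
    · intro g x y
      rw [hin, hin, hR, hR, hEm, inner_unitary (hσ g).1]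
  have h5 : m ≤ max 1 m' := csInf_le hbd ⟨le_max_left _ _, hnew.mono (le_max_right _ _)⟩
  exact absurd h5 (not_le.2 (max_lt hm1' hm'))

end

/-- The distance constant from the similarity constants near `1`. -/
theorem dist_of_inv {G : Type} [Group G] (K : ℝ) (hK : 0 ≤ K)
    (hgood : ∀ δ : ℝ, 0 < δ → ∃ c : ℝ, 1 < c ∧ c < 1 + δ ∧
      ∀ (H : Type) [NormedAddCommGroup H] [InnerProductSpace ℂ H] [CompleteSpace H]
        (π : G →* (H →L[ℂ] H)ˣ), (∃ M : ℝ, Inv π 1 M) → Bdd π c → Inv π 1 (c ^ (4 * K))) :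
    DistanceBound G K :=
  dist_all K (dist_selfadjoint K hK hgood)

end Pool.Agent.TH278.DX
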