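import Mathlib
import Pool.Agent.TH278.DX.Basic
import Pool.Agent.TH511.J4446
import Pool.Agent.TH576.J4447
import Pool.Agent.TH496.J4448
import Pool.Agent.TH75.J4449
import Pool.Agent.TH89.J4450
import Pool.Agent.TH480.J4451
import Pool.Agent.TH720.J4452
import Pool.Agent.TH360.J4453
import Pool.Agent.TH645.J4454
import Pool.Agent.TH124.J4465
set_option autoImplicit false

namespace Pool.Agent.TH278.DX

open Pool.Agent.TH511.J4446 (interp)
open Pool.Agent.TH496.J4448 (dual)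
open Pool.Agent.TH75.J4449 (slices)
open Pool.Agent.TH89.J4450 (tensor_rep)
open Pool.Agent.TH480.J4451 (uniform)
open Pool.Agent.TH720.J4452 (inv_closed)
open Pool.Agent.TH360.J4453 (induce)
open Pool.Agent.TH645.J4454 (power_law)
open Pool.Agent.TH124.J4465 (sim_tensor)

section

variable {G K E F L : Type} [Group G] [Group K] [NormedAddCommGroup E]
    [InnerProductSpace ℂ E] [CompleteSpace E] [NormedAddCommGroup F] [InnerProductSpace ℂ F]
    [CompleteSpace F] [NormedAddCommGroup L] [InnerProductSpace ℂ L] [CompleteSpace L]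

theorem mult (π : G →* (E →L[ℂ] E)ˣ) (ρ : K →* (F →L[ℂ] F)ˣ) (Ω : G × K →* (L →L[ℂ] L)ˣ)
    (τ : E →ₗ[ℂ] F →ₗ[ℂ] L)
    (hτ : ∀ x y x' y', inner ℂ (τ x y) (τ x' y') = inner ℂ x x' * inner ℂ y y')
    (hΩ : ∀ (p : G × K) (x : E) (y : F), ((Ω p : (L →L[ℂ] L)ˣ) : L →L[ℂ] L) (τ x y) =
        τ (((π p.1 : (E →L[ℂ] E)ˣ) : E →L[ℂ] E) x) (((ρ p.2 : (F →L[ℂ] F)ˣ) : F →L[ℂ] F) y))
    (M c' : ℝ) (hL : Inv Ω 1 M) (hc' : 0 < c') (h : ¬ Inv ρ 1 c') : Inv π 1 (M / c') := by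
  have hnorm : ∀ x y, ‖τ x y‖ ^ 2 = ‖x‖ ^ 2 * ‖y‖ ^ 2 := by
    intro x y
    have h1 := hτ x y x y
    rw [inner_self_eq_norm_sq_to_K, inner_self_eq_norm_sq_to_K, inner_self_eq_norm_sq_to_K] at h1
    have h2 : (((‖τ x y‖ ^ 2 : ℝ)) : ℂ) = ((‖x‖ ^ 2 * ‖y‖ ^ 2 : ℝ) : ℂ) := by
      push_cast
      exact h1
    exact_mod_cast h2
  obtain ⟨B, hB1, hB2, hB3, hB4⟩ := hL
  obtain ⟨β, hβ, hP⟩ := slices τ hτ B
  -- equivariance of the slices
  have hβG : ∀ g x x', β (((π g : (E →L[ℂ] E)ˣ) : E →L[ℂ] E) x)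
      (((π g : (E →L[ℂ] E)ˣ) : E →L[ℂ] E) x') = β x x' := by
    intro g x x'
    ext y
    apply ext_inner_right ℂ
    intro y'
    rw [hβ, hβ, ← hB4 (g, 1) (τ x y) (τ x' y'), hΩ, hΩ]
    simp
  have hβK : ∀ x x' k y y', inner ℂ (β x x' (((ρ k : (F →L[ℂ] F)ˣ) : F →L[ℂ] F) y))
      (((ρ k : (F →L[ℂ] F)ˣ) : F →L[ℂ] F) y') = inner ℂ (β x x' y) y' := by
    intro x x' k y y'
    rw [hβ, hβ, ← hB4 (1, k) (τ x y) (τ x' y'), hΩ, hΩ]
    simp
  have hβlow : ∀ x y, ‖x‖ ^ 2 * ‖y‖ ^ 2 ≤ (inner ℂ (β x x y) y).re := by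
    intro x y
    rw [hβ, ← hnorm]
    have := hB2 (τ x y)
    linarith
  have hβup : ∀ x y, (inner ℂ (β x x y) y).re ≤ M * (‖x‖ ^ 2 * ‖y‖ ^ 2) := by
    intro x y
    rw [hβ, ← hnorm]
    exact hB3 (τ x y)
  -- trivial case
  by_cases hE : ∀ x : E, x = 0
  · refine ⟨0, fun x y => by simp, fun x => ?_, fun x => ?_, fun g x y => by simp⟩
    · simp [hE x]
    · simp [hE x]
  push Not at hE
  obtain ⟨x0, hx0⟩ := hE
  have hx0' : 0 < ‖x0‖ ^ 2 := by positivity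
  have h0 : Inv ρ 1 M := by
    have h5 : Inv ρ (‖x0‖ ^ 2) (M * ‖x0‖ ^ 2) := by
      apply inv_of_form (β x0 x0)
      · exact fun y => hβlow x0 y
      · intro y
        have := hβup x0 y
        linarith
      · exact fun k y y' => hβK x0 x0 k y y'
    have h6 := h5.scale (‖x0‖ ^ 2)⁻¹ (by positivity)
    rwa [inv_mul_cancel₀ hx0'.ne', ← mul_assoc, mul_comm (‖x0‖ ^ 2)⁻¹ M, mul_assoc,
      inv_mul_cancel₀ hx0'.ne', mul_one] at h6
  obtain ⟨P, Q, hPpos, hQpos, hPQ, hQ1, hP1⟩ := dual ρ c' M h0 h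
  obtain ⟨A, hA⟩ := hP P
  have hPβ : ∀ x, c' * ‖x‖ ^ 2 ≤ (P (β x x)).re := by
    intro x
    have h7 := hPpos (β x x - ((‖x‖ ^ 2 : ℝ) : ℂ) • (1 : F →L[ℂ] F)) (fun y => by
      simp only [sub_apply, smul_apply, one_apply_eq_self, inner_sub_left,
        inner_smul_left, Complex.conj_ofReal, Complex.sub_re, Complex.re_ofReal_mul]
      have h8 := hβlow x y
      have h9 : (inner ℂ y y : ℂ).re = ‖y‖ ^ 2 := by
        rw [inner_self_eq_norm_sq_to_K]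
        norm_cast
      rw [h9]
      linarith)
    rw [map_sub, map_smul, Complex.sub_re, smul_eq_mul, Complex.re_ofReal_mul] at h7
    have h10 := mul_le_mul_of_nonneg_left hP1 (sq_nonneg ‖x‖)
    linarith
  have hQβ : ∀ x, (Q (β x x)).re ≤ M * ‖x‖ ^ 2 := by
    intro x
    have h7 := hQpos (((M * ‖x‖ ^ 2 : ℝ) : ℂ) • (1 : F →L[ℂ] F) - β x x) (fun y => by
      simp only [sub_apply, smul_apply, one_apply_eq_self, inner_sub_left,
        inner_smul_left, Complex.conj_ofReal, Complex.sub_re, Complex.re_ofReal_mul]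
      have h8 := hβup x y
      have h9 : (inner ℂ y y : ℂ).re = ‖y‖ ^ 2 := by
        rw [inner_self_eq_norm_sq_to_K]
        norm_cast
      rw [h9]
      linarith)
    rw [map_sub, map_smul, Complex.sub_re, smul_eq_mul, Complex.re_ofReal_mul, hQ1,
      Complex.one_re] at h7
    linarith
  have hAre : ∀ x, (inner ℂ (A x) x).re = (P (β x x)).re := by
    intro x
    rw [← inner_conj_symm, Complex.conj_re, hA]
  have h11 : Inv π c' M := by
    apply inv_of_form A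
    · intro x
      rw [hAre]; exact hPβ x
    · intro x
      rw [hAre, hPQ (β x x) (fun k y y' => hβK x x k y y')]
      exact hQβ x
    · intro g x y
      rw [← inner_conj_symm, hA, hβG, ← hA, inner_conj_symm]
  have h12 := h11.scale c'⁻¹ (by positivity)
  rwa [inv_mul_cancel₀ hc'.ne', mul_comm, ← div_eq_mul_inv] at h12

theorem sq_root (π : G →* (E →L[ℂ] E)ˣ) (Ω : G × G →* (L →L[ℂ] L)ˣ)
    (τ : E →ₗ[ℂ] E →ₗ[ℂ] L)
    (hτ : ∀ x y x' y', inner ℂ (τ x y) (τ x' y') = inner ℂ x x' * inner ℂ y y')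
    (hΩ : ∀ (p : G × G) (x : E) (y : E), ((Ω p : (L →L[ℂ] L)ˣ) : L →L[ℂ] L) (τ x y) =
        τ (((π p.1 : (E →L[ℂ] E)ˣ) : E →L[ℂ] E) x) (((π p.2 : (E →L[ℂ] E)ˣ) : E →L[ℂ] E) y))
    (M : ℝ) (hL : Inv Ω 1 M) : Inv π 1 (Real.sqrt M) := by
  apply inv_closed
  intro M' hM'
  by_contra hcon
  have h0 : 0 < M' := (Real.sqrt_nonneg M).trans_lt hM'
  have h1 := mult π π Ω τ hτ hΩ M M' hL h0 hcon
  apply hcon
  apply h1.mono
  rw [div_le_iff₀ h0]
  have := Real.lt_sq_of_sqrt_lt hM'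
  nlinarith

end

end Pool.Agent.TH278.DX
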