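import Mathlib
import Pool.Agent.TH278.DX.Mult
set_option autoImplicit false

namespace Pool.Agent.TH278.DX

open Pool.Agent.TH511.J4446 (interp)
open Pool.Agent.TH496.J4448 (dual)
open Pool.Agent.TH75.J4449 (slices)
open Pool.Agent.TH89.J4450 (tensor_rep)
open Pool.Agent.TH480.J4451 (uniform)
open Pool.Agent.TH720.J4452 (inv_closed)
open Pool.Agent.TH360.J4453 (induce)
open Pool.Agent.TH645.J4454 (power_law)
open Pool.Agent.TH124.J4465 (sim_tensor)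

/-- All representations bounded by `c` have an invariant `A` with `1 ≤ A ≤ M`. -/
def Good (G : Type) [Group G] (c M : ℝ) : Prop :=
  ∀ (H : Type) [NormedAddCommGroup H] [InnerProductSpace ℂ H] [CompleteSpace H]
      (π : G →* (H →L[ℂ] H)ˣ), Bdd π c → Inv π 1 M

section

variable {G K H : Type} [Group G] [Group K] [NormedAddCommGroup H]
    [InnerProductSpace ℂ H] [CompleteSpace H]

omit [CompleteSpace H] in
theorem Bdd.mono {π : G →* (H →L[ℂ] H)ˣ} {c c' : ℝ} (h : Bdd π c) (hc : c ≤ c') : Bdd π c' :=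
  fun g => (h g).trans hc

theorem inv_restrict {Λ H' : Type} [Group Λ] [NormedAddCommGroup H'] [InnerProductSpace ℂ H']
    [CompleteSpace H'] (i : Λ → G) (π : Λ →* (H →L[ℂ] H)ˣ) (π' : G →* (H' →L[ℂ] H')ˣ)
    (J : H →ₗᵢ[ℂ] H')
    (hJ : ∀ (l : Λ) (x : H), ((π' (i l) : (H' →L[ℂ] H')ˣ) : H' →L[ℂ] H') (J x) =
        J (((π l : (H →L[ℂ] H)ˣ) : H →L[ℂ] H) x)) (m M : ℝ) (h : Inv π' m M) : Inv π m M := by
  obtain ⟨A, h1, h2, h3, h4⟩ := h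
  have hin : ∀ x y : H, inner ℂ ((ContinuousLinearMap.adjoint J.toContinuousLinearMap ∘L A ∘L
      J.toContinuousLinearMap) x) y = inner ℂ (A (J x)) (J y) := by
    intro x y
    simp [ContinuousLinearMap.adjoint_inner_left]
  apply inv_of_form (ContinuousLinearMap.adjoint J.toContinuousLinearMap ∘L A ∘L
      J.toContinuousLinearMap)
  · intro x
    rw [hin, ← J.norm_map x]
    exact h2 (J x)
  · intro x
    rw [hin, ← J.norm_map x]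
    exact h3 (J x)
  · intro g x y
    rw [hin, hin, ← hJ, ← hJ, h4]

/-- From `Γ × Γ` to `Γ`: the constant for `c²` is at least the square of the constant for `c`. -/
theorem step {Γ : Type} [Group Γ] (Λ : Subgroup Γ) (φ : Λ →* Γ × Γ)
    (hφ : Function.Surjective φ) (c M : ℝ) (h : Good Γ (c ^ 2) M) : Good Γ c (Real.sqrt M) := by
  intro E _ _ _ π hπ
  obtain ⟨L, _, _, _, τ, Ω, hτ, hΩ, hΩn, -⟩ := tensor_rep π π
  have hc : 0 ≤ c := (norm_nonneg _).trans (hπ 1)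
  have hB : Bdd (Ω.comp φ) (c ^ 2) := by
    intro l
    refine (hΩn (φ l)).trans ?_
    rw [sq]
    exact mul_le_mul (hπ _) (hπ _) (norm_nonneg _) hc
  obtain ⟨H', _, _, _, π', J, hπ', hJ⟩ := induce Λ (Ω.comp φ) (c ^ 2) hB
  have h1 : Inv π' 1 M := h H' π' hπ'
  have h2 : Inv (Ω.comp φ) 1 M := inv_restrict (fun l : Λ => (l : Γ)) (Ω.comp φ) π' J hJ 1 M h1
  have h3 : Inv Ω 1 M := by
    obtain ⟨A, a1, a2, a3, a4⟩ := h2
    refine ⟨A, a1, a2, a3, fun p x y => ?_⟩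
    obtain ⟨l, rfl⟩ := hφ p
    exact a4 l x y
  exact sq_root π Ω τ hτ hΩ M h3

/-- Interpolation for one representation. -/
theorem interp_one (π : G →* (H →L[ℂ] H)ˣ) (c : ℝ) (hc : 1 ≤ c) (hπ : Bdd π c) (j k : ℕ)
    (hj0 : 0 < j) (hj : j ≤ 2 ^ k) (M₀ M₁ : ℝ) (hM₀ : 1 ≤ M₀) (h0 : Inv π 1 M₀)
    (hgood : Good G (c ^ ((j : ℝ) / 2 ^ k)) M₁) :
    Inv π 1 (M₁ * M₀ ^ (1 - (j : ℝ) / 2 ^ k)) := by
  obtain ⟨A, h1, h2, h3, h4⟩ := h0
  have hs : 1 ≤ Real.sqrt M₀ := by rwa [Real.one_le_sqrt]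
  have hs2 : Real.sqrt M₀ ^ 2 = M₀ := Real.sq_sqrt (by linarith)
  obtain ⟨R, r1, r2, r3, r4⟩ := interp A (Real.sqrt M₀) hs h1 h2 (by rw [hs2]; exact h3)
    (2 ^ k - j) k (Nat.sub_le _ _)
  have hexp : (((2 ^ k - j : ℕ) : ℝ) / 2 ^ k) = 1 - (j : ℝ) / 2 ^ k := by
    rw [Nat.cast_sub hj]
    push_cast
    field_simp
  rw [hexp] at r3 r4
  have hθ : 0 ≤ 1 - (j : ℝ) / 2 ^ k := by
    rw [sub_nonneg, div_le_one (by positivity)]
    exact_mod_cast hj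
  -- the conjugated representation
  let π' : G →* (H →L[ℂ] H)ˣ := (MulAut.conj R).toMonoidHom.comp π
  have hπ'v : ∀ g, π' g = R * π g * R⁻¹ := fun g => rfl
  have hB : Bdd π' (c ^ ((j : ℝ) / 2 ^ k)) := by
    intro g
    rw [hπ'v]
    have := r4 (π g) c hc (hπ g) (h4 g)
    rwa [sub_sub_cancel] at this
  obtain ⟨A', a1, a2, a3, a4⟩ := hgood H π' hB
  have hR : ∀ g x, (R : H →L[ℂ] H) (((π g : (H →L[ℂ] H)ˣ) : H →L[ℂ] H) x) =
      ((π' g : (H →L[ℂ] H)ˣ) : H →L[ℂ] H) ((R : H →L[ℂ] H) x) := by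
    intro g x
    rw [hπ'v]
    have : ((R⁻¹ : (H →L[ℂ] H)ˣ) : H →L[ℂ] H) ((R : H →L[ℂ] H) x) = x := by
      have h5 : ((R⁻¹ : (H →L[ℂ] H)ˣ) : H →L[ℂ] H) * (R : H →L[ℂ] H) = 1 := R.inv_mul
      exact congrArg (fun T : H →L[ℂ] H => T x) h5
    change _ = (R : H →L[ℂ] H) (((π g : (H →L[ℂ] H)ˣ) : H →L[ℂ] H)
      (((R⁻¹ : (H →L[ℂ] H)ˣ) : H →L[ℂ] H) ((R : H →L[ℂ] H) x)))
    rw [this]
  have hin : ∀ x y : H, inner ℂ (((R : H →L[ℂ] H) ∘L A' ∘L (R : H →L[ℂ] H)) x) y =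
      inner ℂ (A' ((R : H →L[ℂ] H) x)) ((R : H →L[ℂ] H) y) := by
    intro x y
    simp only [ContinuousLinearMap.comp_apply]
    rw [r1]
  have hM₁ : ∀ x : H, 0 ≤ M₁ * ‖x‖ ^ 2 := by
    intro x
    have e1 := a2 x
    have e2 := a3 x
    have : 0 ≤ ‖x‖ ^ 2 := sq_nonneg _
    linarith
  apply inv_of_form ((R : H →L[ℂ] H) ∘L A' ∘L (R : H →L[ℂ] H))
  · intro x
    rw [hin]
    have e1 := a2 ((R : H →L[ℂ] H) x)
    have e2 : ‖x‖ ^ 2 ≤ ‖(R : H →L[ℂ] H) x‖ ^ 2 := pow_le_pow_left₀ (norm_nonneg _) (r2 x) 2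
    linarith
  · intro x
    rw [hin]
    have e1 := a3 ((R : H →L[ℂ] H) x)
    have e2 : ‖(R : H →L[ℂ] H) x‖ ^ 2 ≤ M₀ ^ (1 - (j : ℝ) / 2 ^ k) * ‖x‖ ^ 2 := by
      have e3 := pow_le_pow_left₀ (norm_nonneg _) (r3 x) 2
      rw [mul_pow] at e3
      have e4 : (Real.sqrt M₀ ^ (1 - (j : ℝ) / 2 ^ k)) ^ 2 = M₀ ^ (1 - (j : ℝ) / 2 ^ k) := by
        rw [← Real.rpow_natCast, ← Real.rpow_mul (Real.sqrt_nonneg _), mul_comm,
          Real.rpow_mul (Real.sqrt_nonneg _), Real.rpow_natCast, hs2]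
      rwa [e4] at e3
    by_cases hx : x = 0
    · subst hx
      simp
    · have hMp : 0 ≤ M₁ := by
        have := hM₁ x
        have h0 : 0 < ‖x‖ ^ 2 := by
          have := norm_pos_iff.2 hx
          positivity
        by_contra hneg
        push Not at hneg
        nlinarith
      calc (inner ℂ (A' ((R : H →L[ℂ] H) x)) ((R : H →L[ℂ] H) x)).re
          ≤ M₁ * ‖(R : H →L[ℂ] H) x‖ ^ 2 := e1
        _ ≤ M₁ * (M₀ ^ (1 - (j : ℝ) / 2 ^ k) * ‖x‖ ^ 2) := mul_le_mul_of_nonneg_left e2 hMp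
        _ = M₁ * M₀ ^ (1 - (j : ℝ) / 2 ^ k) * ‖x‖ ^ 2 := by ring
  · intro g x y
    rw [hin, hin, hR, hR, a4]

/-- Interpolation: the best constant. -/
theorem interp_good (π : G →* (H →L[ℂ] H)ˣ) (c : ℝ) (hc : 1 ≤ c) (hπ : Bdd π c) (j k : ℕ)
    (hj0 : 0 < j) (hj : j ≤ 2 ^ k) (M₀ M₁ : ℝ) (h0 : Inv π 1 M₀) (hM₁ : 1 ≤ M₁)
    (hgood : Good G (c ^ ((j : ℝ) / 2 ^ k)) M₁) :
    Inv π 1 (M₁ ^ ((2 : ℝ) ^ k / j)) := by
  set S : Set ℝ := {M | 1 ≤ M ∧ Inv π 1 M} with hS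
  have hne : S.Nonempty := ⟨max 1 M₀, le_max_left _ _, h0.mono (le_max_right _ _)⟩
  have hbd : BddBelow S := ⟨1, fun M hM => hM.1⟩
  have hm1 : 1 ≤ sInf S := le_csInf hne fun M hM => hM.1
  have hatt : Inv π 1 (sInf S) := by
    apply inv_closed
    intro M' hM'
    obtain ⟨M, hM, hMM'⟩ := (csInf_lt_iff hbd hne).1 hM'
    exact hM.2.mono hMM'.le
  set m := sInf S with hm
  set t : ℝ := (j : ℝ) / 2 ^ k with ht
  have htpos : 0 < t := by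
    rw [ht]
    have : (0 : ℝ) < j := by exact_mod_cast hj0
    positivity
  have ht1 : t ≤ 1 := by
    rw [ht, div_le_one (by positivity)]
    exact_mod_cast hj
  have h5 := interp_one π c hc hπ j k hj0 hj m M₁ hm1 hatt hgood
  rw [← ht] at h5
  have hge : 1 ≤ M₁ * m ^ (1 - t) := by
    have := Real.one_le_rpow hm1 (sub_nonneg.2 ht1)
    nlinarith
  have h6 : m ≤ M₁ * m ^ (1 - t) := csInf_le hbd ⟨hge, h5⟩
  have hmpos : 0 < m := by linarith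
  have h7 : m ^ t ≤ M₁ := by
    have e1 : m = m ^ t * m ^ (1 - t) := by
      rw [← Real.rpow_add hmpos]
      simp
    have e2 : 0 < m ^ (1 - t) := Real.rpow_pos_of_pos hmpos _
    have e3 : m ^ t * m ^ (1 - t) ≤ M₁ * m ^ (1 - t) := by
      rw [← e1]; exact h6
    exact le_of_mul_le_mul_right e3 e2
  have h8 : m ≤ M₁ ^ ((2 : ℝ) ^ k / j) := by
    have e4 : (2 : ℝ) ^ k / j = 1 / t := by
      rw [ht, one_div_div]
    rw [e4]
    calc m = (m ^ t) ^ (1 / t) := by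
          rw [← Real.rpow_mul hmpos.le, mul_one_div_cancel htpos.ne', Real.rpow_one]
      _ ≤ M₁ ^ (1 / t) := Real.rpow_le_rpow (Real.rpow_nonneg hmpos.le _) h7 (by positivity)
  exact hatt.mono h8

end

end Pool.Agent.TH278.DX
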