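import Mathlib
import Pool.Agent.TH278.DX.Main
set_option autoImplicit false

namespace Pool.Agent.TH278.DX

open Pool.Agent.TH511.J4446 (interp)
open Pool.Agent.TH496.J4448 (dual)
open Pool.Agent.TH75.J4449 (slices)
open Pool.Agent.TH89.J4450 (tensor_rep)
open Pool.Agent.TH480.J4451 (uniform)
open Pool.Agent.TH720.J4452 (inv_closed)
open Pool.Agent.TH360.J4453 (induce)
open Pool.Agent.TH645.J4454 (power_law)
open Pool.Agent.TH124.J4465 (sim_tensor)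

theorem Sim.mono {G H : Type} [Group G] [NormedAddCommGroup H] [InnerProductSpace ℂ H]
    [CompleteSpace H] {π : G →* (H →L[ℂ] H)ˣ} {κ κ' : ℝ} (h : Sim π κ) (hk : κ ≤ κ') :
    Sim π κ' := by
  obtain ⟨S, h1, h2⟩ := h
  exact ⟨S, h1.trans hk, h2⟩

theorem one_le_of_sim {G H : Type} [Group G] [NormedAddCommGroup H] [InnerProductSpace ℂ H]
    [CompleteSpace H] [Nontrivial H] {π : G →* (H →L[ℂ] H)ˣ} {κ : ℝ} (h : Sim π κ) : 1 ≤ κ := by
  obtain ⟨S, h1, -⟩ := h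
  refine le_trans ?_ h1
  have h2 : ((S : H →L[ℂ] H)) * ((S⁻¹ : (H →L[ℂ] H)ˣ) : H →L[ℂ] H) = 1 := S.mul_inv
  have h3 := norm_mul_le ((S : H →L[ℂ] H)) ((S⁻¹ : (H →L[ℂ] H)ˣ) : H →L[ℂ] H)
  rw [h2, norm_one] at h3
  exact h3

/-- The power law for the constant of invariant operators. -/
theorem power {Γ : Type} [Group Γ] (Λ : Subgroup Γ) (φ : Λ →* Γ × Γ)
    (hφ : Function.Surjective φ)
    (hU : ∀ (c : ℝ) (H : Type) [NormedAddCommGroup H] [InnerProductSpace ℂ H] [CompleteSpace H]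
      (π : Γ →* (H →L[ℂ] H)ˣ), Bdd π c → ∃ M : ℝ, Inv π 1 M) :
    ∃ b : ℝ, 0 ≤ b ∧ ∀ c : ℝ, 1 ≤ c → ∀ M : ℝ, 1 ≤ M → (Good Γ c M ↔ c ^ b ≤ M) := by
  let S : ℝ → Set ℝ := fun c => {M : ℝ | 1 ≤ M ∧ Good Γ c M}
  have hne : ∀ c, (S c).Nonempty := by
    intro c
    obtain ⟨M, hM⟩ := uniform c (hU c)
    exact ⟨max 1 M, le_max_left _ _, fun H _ _ _ π hπ => (hM H π hπ).mono (le_max_right _ _)⟩
  have hbd : ∀ c, BddBelow (S c) := fun c => ⟨1, fun M hM => hM.1⟩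
  let f : ℝ → ℝ := fun c => sInf (S c)
  have hf1 : ∀ c, 1 ≤ f c := fun c => le_csInf (hne c) fun M hM => hM.1
  have hatt : ∀ c, Good Γ c (f c) := by
    intro c H _ _ _ π hπ
    apply inv_closed
    intro M' hM'
    obtain ⟨M, hM, hMM'⟩ := (csInf_lt_iff (hbd c) (hne c)).1 hM'
    exact (hM.2 H π hπ).mono hMM'.le
  have hiff : ∀ c M, 1 ≤ M → (Good Γ c M ↔ f c ≤ M) := by
    intro c M hM
    constructor
    · intro h
      exact csInf_le (hbd c) ⟨hM, h⟩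
    · intro h H _ _ _ π hπ
      exact (hatt c H π hπ).mono h
  obtain ⟨b, hb, hfb⟩ := power_law f (fun c _ => hf1 c)
    (by
      intro c d _ hcd
      apply (hiff c (f d) (hf1 d)).1
      intro H _ _ _ π hπ
      exact hatt d H π (hπ.mono hcd))
    (by
      intro c hc j k hj0 hj
      have h1 : 1 ≤ f (c ^ ((j : ℝ) / 2 ^ k)) ^ ((2 : ℝ) ^ k / j) := by
        apply Real.one_le_rpow (hf1 _)
        positivity
      apply (hiff c _ h1).1
      intro H _ _ _ π hπ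
      exact interp_good π c hc hπ j k hj0 hj (f c) _ (hatt c H π hπ) (hf1 _) (hatt _))
    (by
      intro c hc
      have h1 : Good Γ c (Real.sqrt (f (c ^ 2))) := step Λ φ hφ c _ (hatt _)
      have h2 : f c ≤ Real.sqrt (f (c ^ 2)) := by
        apply (hiff c _ _).1 h1
        rw [Real.one_le_sqrt]
        exact hf1 _
      have h3 : 0 ≤ f c := by linarith [hf1 c]
      have h4 : 0 ≤ f (c ^ 2) := by linarith [hf1 (c ^ 2)]
      calc f c ^ 2 ≤ Real.sqrt (f (c ^ 2)) ^ 2 := pow_le_pow_left₀ h3 h2 2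
        _ = f (c ^ 2) := Real.sq_sqrt h4)
  refine ⟨b, hb, fun c hc M hM => ?_⟩
  rw [hiff c M hM, hfb c hc]

/-- The power law for similarity constants. -/
theorem power_sim {Γ : Type} [Group Γ] (Λ : Subgroup Γ) (φ : Λ →* Γ × Γ)
    (hφ : Function.Surjective φ)
    (hU : ∀ (c : ℝ) (H : Type) [NormedAddCommGroup H] [InnerProductSpace ℂ H] [CompleteSpace H]
      (π : Γ →* (H →L[ℂ] H)ˣ), Bdd π c → ∃ κ : ℝ, Sim π κ) :
    ∃ a : ℝ, 0 ≤ a ∧ ∀ c κ : ℝ, 1 ≤ c →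
      ((∀ (H : Type) [NormedAddCommGroup H] [InnerProductSpace ℂ H] [CompleteSpace H]
        (π : Γ →* (H →L[ℂ] H)ˣ), Bdd π c → Sim π κ) ↔ c ^ a ≤ κ) := by
  obtain ⟨b, hb, hpow⟩ := power Λ φ hφ (by
    intro c H _ _ _ π hπ
    obtain ⟨κ, hκ⟩ := hU c H π hπ
    exact ⟨(max 1 κ) ^ 2, (sim_iff_inv π _ (le_max_left _ _)).1 (hκ.mono (le_max_right _ _))⟩)
  refine ⟨b / 2, by positivity, fun c κ hc => ?_⟩
  have hc0 : 0 < c := by linarith
  have hca : 1 ≤ c ^ (b / 2) := Real.one_le_rpow hc (by positivity)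
  have hsq : (c ^ (b / 2)) ^ 2 = c ^ b := by
    rw [← Real.rpow_natCast, ← Real.rpow_mul hc0.le]
    congr 1
    push_cast
    ring
  constructor
  · intro h
    have hκ : 1 ≤ κ := by
      have h1 := h ℂ (1 : Γ →* (ℂ →L[ℂ] ℂ)ˣ) (by
        intro g
        have : ((((1 : Γ →* (ℂ →L[ℂ] ℂ)ˣ) g : (ℂ →L[ℂ] ℂ)ˣ)) : ℂ →L[ℂ] ℂ) = 1 := by simp
        rw [this, norm_one]
        exact hc)
      exact one_le_of_sim h1
    have h2 : Good Γ c (κ ^ 2) := by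
      intro H _ _ _ π hπ
      exact (sim_iff_inv π κ hκ).1 (h H π hπ)
    have h3 : c ^ b ≤ κ ^ 2 := (hpow c hc (κ ^ 2) (one_le_pow₀ hκ)).1 h2
    rw [← hsq] at h3
    exact le_of_sq_le_sq h3 (by linarith)
  · intro h H _ _ _ π hπ
    have h1 : Good Γ c (c ^ b) := (hpow c hc (c ^ b) (Real.one_le_rpow hc hb)).2 le_rfl
    have h2 : Sim π (c ^ (b / 2)) := by
      rw [sim_iff_inv π _ hca, hsq]
      exact h1 H π hπ
    exact h2.mono h

end Pool.Agent.TH278.DX
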