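import Mathlib
import Pool.Agent.TH278.DX.Power
import Pool.Agent.TH278.DX.Dist
import Pool.Agent.TH278.DX.Amen
import Pool.Agent.TH695.J4661
set_option autoImplicit false

namespace Pool.Agent.TH278.DX

open Pool.Agent.TH89.J4450 (tensor_rep)
open Pool.Agent.TH480.J4451 (uniform)
open Pool.Agent.TH720.J4452 (inv_closed)
open Pool.Agent.TH124.J4465 (sim_tensor)
open Pool.Agent.TH695.J4661 (induce2)
open Pool.Agent.TH993.DX (dist_of_uniform)

theorem inv_iff_sim {G H : Type} [Group G] [NormedAddCommGroup H] [InnerProductSpace ℂ H]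
    [CompleteSpace H] (π : G →* (H →L[ℂ] H)ˣ) :
    (∃ M : ℝ, Inv π 1 M) ↔ ∃ κ : ℝ, Sim π κ := by
  constructor
  · rintro ⟨M, hM⟩
    refine ⟨max 1 M, (sim_iff_inv π _ (le_max_left _ _)).2 (hM.mono ?_)⟩
    have h1 := le_max_left 1 M
    have h2 := le_max_right 1 M
    nlinarith
  · rintro ⟨κ, hκ⟩
    exact ⟨(max 1 κ) ^ 2, (sim_iff_inv π _ (le_max_left _ _)).1 (hκ.mono (le_max_right _ _))⟩

/-- From `Γ × Γ` to `Γ`, for unitarizable representations. -/
theorem stepU {Γ : Type} [Group Γ] (Λ : Subgroup Γ) (φ : Λ →* Γ × Γ)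
    (hφ : Function.Surjective φ) (c M : ℝ) (h : GoodU Γ (c ^ 2) M) : GoodU Γ c (Real.sqrt M) := by
  intro E _ _ _ π hU hπ
  obtain ⟨L, _, _, _, τ, Ω, hτ, hΩ, hΩn, hd⟩ := tensor_rep π π
  have hc : 0 ≤ c := (norm_nonneg _).trans (hπ 1)
  have hB : Bdd (Ω.comp φ) (c ^ 2) := by
    intro l
    refine (hΩn (φ l)).trans ?_
    rw [sq]
    exact mul_le_mul (hπ _) (hπ _) (norm_nonneg _) hc
  obtain ⟨κ, hκ⟩ := (inv_iff_sim π).1 hU
  obtain ⟨M₀, hM₀⟩ := (inv_iff_sim Ω).2 ⟨_, sim_tensor π π Ω τ hτ hd hΩ κ κ hκ hκ⟩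
  have hM₀' : Inv (Ω.comp φ) 1 M₀ := by
    obtain ⟨A, a1, a2, a3, a4⟩ := hM₀
    exact ⟨A, a1, a2, a3, fun l x y => a4 (φ l) x y⟩
  obtain ⟨H', _, _, _, π', J, hπ', hJ, hinv⟩ := induce2 Λ (Ω.comp φ) (c ^ 2) hB
  have h1 : Inv π' 1 M := h H' π' ⟨M₀, hinv 1 M₀ hM₀'⟩ hπ'
  have h2 : Inv (Ω.comp φ) 1 M := inv_restrict (fun l : Λ => (l : Γ)) (Ω.comp φ) π' J hJ 1 M h1
  have h3 : Inv Ω 1 M := by
    obtain ⟨A, a1, a2, a3, a4⟩ := h2
    refine ⟨A, a1, a2, a3, fun p x y => ?_⟩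
    obtain ⟨l, rfl⟩ := hφ p
    exact a4 l x y
  exact sq_root π Ω τ hτ hΩ M h3

theorem goodU_of_dist {G : Type} [Group G] (K : ℝ) (hK : 0 ≤ K) (hD : DistanceBound G K)
    (c : ℝ) (hc : 1 ≤ c) : GoodU G c (c ^ (4 * K)) := by
  intro H _ _ _ π hU hπ
  obtain ⟨M₀, hM₀⟩ := hU
  exact inv_of_dist K hK hD π M₀ hM₀ c hc hπ

theorem sq_rpow (c K : ℝ) (hc : 0 ≤ c) : (c ^ (2 * K)) ^ 2 = c ^ (4 * K) := by
  rw [← Real.rpow_natCast, ← Real.rpow_mul hc]
  congr 1
  push_cast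
  ring

/-- `GoodU` in terms of similarity constants. -/
theorem goodU_iff_sim {G : Type} [Group G] (K : ℝ) (hK : 0 ≤ K) (c : ℝ) (hc : 1 ≤ c) :
    GoodU G c (c ^ (4 * K)) ↔
      ∀ (H : Type) [NormedAddCommGroup H] [InnerProductSpace ℂ H] [CompleteSpace H]
        (π : G →* (H →L[ℂ] H)ˣ), (∃ κ : ℝ, Sim π κ) → Bdd π c → Sim π (c ^ (2 * K)) := by
  have h1 : 1 ≤ c ^ (2 * K) := Real.one_le_rpow hc (by positivity)
  constructor
  · intro h H _ _ _ π hU hπ
    rw [sim_iff_inv π _ h1, sq_rpow c K (by linarith)]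
    exact h H π ((inv_iff_sim π).2 hU) hπ
  · intro h H _ _ _ π hU hπ
    have := h H π ((inv_iff_sim π).1 hU) hπ
    rwa [sim_iff_inv π _ h1, sq_rpow c K (by linarith)] at this

/-- All groups: the exponent is the distance constant. -/
theorem exponent_iff {G : Type} [Group G] (K : ℝ) (hK : 0 ≤ K) :
    DistanceBound G K ↔ ∀ c : ℝ, 1 ≤ c →
      ∀ (H : Type) [NormedAddCommGroup H] [InnerProductSpace ℂ H] [CompleteSpace H]
        (π : G →* (H →L[ℂ] H)ˣ), (∃ κ : ℝ, Sim π κ) → Bdd π c → Sim π (c ^ (2 * K)) := by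
  constructor
  · intro hD c hc
    exact (goodU_iff_sim K hK c hc).1 (goodU_of_dist K hK hD c hc)
  · intro h
    apply dist_of_inv K hK
    intro δ hδ
    refine ⟨1 + δ / 2, by linarith, by linarith, ?_⟩
    exact (goodU_iff_sim K hK (1 + δ / 2) (by linarith)).2 (h _ (by linarith))

/-- Self-similar groups: a single `c > 1` suffices. -/
theorem single_iff {Γ : Type} [Group Γ] (Λ : Subgroup Γ) (φ : Λ →* Γ × Γ)
    (hφ : Function.Surjective φ) (K : ℝ) (hK : 0 ≤ K) (c : ℝ) (hc : 1 < c) :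
    DistanceBound Γ K ↔
      ∀ (H : Type) [NormedAddCommGroup H] [InnerProductSpace ℂ H] [CompleteSpace H]
        (π : Γ →* (H →L[ℂ] H)ˣ), (∃ κ : ℝ, Sim π κ) → Bdd π c → Sim π (c ^ (2 * K)) := by
  constructor
  · intro hD
    exact (goodU_iff_sim K hK c hc.le).1 (goodU_of_dist K hK hD c hc.le)
  · intro h
    have h0 : GoodU Γ c (c ^ (4 * K)) := (goodU_iff_sim K hK c hc.le).2 h
    have hc0 : 0 < c := by linarith
    -- the constants c^(1/2^n)
    have hn : ∀ n : ℕ, GoodU Γ (c ^ ((1 : ℝ) / 2 ^ n)) ((c ^ ((1 : ℝ) / 2 ^ n)) ^ (4 * K)) := by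
      intro n
      induction n with
      | zero => simpa using h0
      | succ n ih =>
        have e1 : (c ^ ((1 : ℝ) / 2 ^ (n + 1))) ^ 2 = c ^ ((1 : ℝ) / 2 ^ n) := by
          rw [← Real.rpow_natCast, ← Real.rpow_mul hc0.le]
          congr 1
          rw [pow_succ]
          push_cast
          field_simp
        rw [← e1] at ih
        have h1 := stepU Λ φ hφ _ _ ih
        set x : ℝ := c ^ ((1 : ℝ) / 2 ^ (n + 1)) with hx
        have hx0 : 0 < x := Real.rpow_pos_of_pos hc0 _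
        have e2 : Real.sqrt ((x ^ 2) ^ (4 * K)) = x ^ (4 * K) := by
          rw [← Real.rpow_natCast x 2, ← Real.rpow_mul hx0.le, mul_comm, Real.rpow_mul hx0.le,
            Real.rpow_natCast]
          exact Real.sqrt_sq (Real.rpow_nonneg hx0.le _)
        rwa [e2] at h1
    apply dist_of_inv K hK
    intro δ hδ
    have hlim : Filter.Tendsto (fun n : ℕ => c ^ ((1 : ℝ) / 2 ^ n)) Filter.atTop (nhds 1) := by
      have h2 : Filter.Tendsto (fun n : ℕ => (1 : ℝ) / 2 ^ n) Filter.atTop (nhds 0) := by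
        have := tendsto_pow_atTop_nhds_zero_of_lt_one (r := (1 / 2 : ℝ)) (by norm_num) (by norm_num)
        refine this.congr fun n => ?_
        rw [one_div_pow]
      have h3 := (Real.continuousAt_const_rpow hc0.ne' (b := 0)).tendsto.comp h2
      rwa [Real.rpow_zero] at h3
    obtain ⟨n, hn'⟩ := (hlim.eventually (gt_mem_nhds (show (1 : ℝ) < 1 + δ by linarith))).exists
    refine ⟨c ^ ((1 : ℝ) / 2 ^ n), ?_, hn', hn n⟩
    exact Real.one_lt_rpow hc (by positivity)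

/-- Every unitarizable group satisfies a distance bound. -/
theorem dist_of_unitarizable {G : Type} [Group G]
    (hU : ∀ (c : ℝ) (H : Type) [NormedAddCommGroup H] [InnerProductSpace ℂ H] [CompleteSpace H]
      (π : G →* (H →L[ℂ] H)ˣ), Bdd π c → ∃ κ : ℝ, Sim π κ) : ∃ K : ℝ, DistanceBound G K := by
  obtain ⟨M, hM⟩ := uniform (G := G) 2 (fun H _ _ _ π hπ => (inv_iff_sim π).2 (hU 2 H π hπ))
  refine ⟨max 1 M, dist_of_uniform (max 1 M) (le_max_left _ _) ?_⟩
  intro H _ _ _ π hπ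
  exact (hM H π hπ).mono (le_max_right _ _)

theorem DistanceBound.nonneg {G : Type} [Group G] {K : ℝ} (h : DistanceBound G K) : 0 ≤ K := by
  have h1 := h ℂ 1 (fun g => by
    have : ((((1 : G →* (ℂ →L[ℂ] ℂ)ˣ) g : (ℂ →L[ℂ] ℂ)ˣ)) : ℂ →L[ℂ] ℂ) = 1 := by simp
    rw [this]
    exact one_mem _) 0 1 (fun g => by simp)
  rw [mul_one] at h1
  exact Metric.infDist_nonneg.trans h1

theorem DistanceBound.mono {G : Type} [Group G] {K K' : ℝ} (h : DistanceBound G K)
    (hK : K ≤ K') : DistanceBound G K' := by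
  intro H _ _ _ σ hσ T d hd
  have h0 : 0 ≤ d := (norm_nonneg _).trans (hd 1)
  exact (h H σ hσ T d hd).trans (mul_le_mul_of_nonneg_right hK h0)

/-- A distance constant below `3/2` forces amenability. -/
theorem amenable_of_dist {G : Type} [Group G] (K : ℝ) (hK : K < 3 / 2)
    (h : DistanceBound G K) : Amenable G := by
  have hK0 : 0 ≤ K := h.nonneg
  apply amenable_of_exponent (2 * K) (by positivity) (by linarith)
  intro c hc
  have := goodU_of_dist K hK0 h c hc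
  have e : 2 * (2 * K) = 4 * K := by ring
  rwa [e]

/-- The gap theorem. -/
theorem gap {G : Type} [Group G] :
    List.TFAE [Amenable G, DistanceBound G 1, ∃ K : ℝ, K < 3 / 2 ∧ DistanceBound G K] := by
  tfae_have 1 → 2 := fun h => amenable_dist h
  tfae_have 2 → 3 := fun h => ⟨1, by norm_num, h⟩
  tfae_have 3 → 1 := fun ⟨K, hK, h⟩ => amenable_of_dist K hK h
  tfae_finish

/-- Self-similar unitarizable groups. -/
theorem self_similar {Γ : Type} [Group Γ] (Λ : Subgroup Γ) (φ : Λ →* Γ × Γ)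
    (hφ : Function.Surjective φ)
    (hU : ∀ (c : ℝ) (H : Type) [NormedAddCommGroup H] [InnerProductSpace ℂ H] [CompleteSpace H]
      (π : Γ →* (H →L[ℂ] H)ˣ), Bdd π c → ∃ κ : ℝ, Sim π κ) :
    ∃ a : ℝ, 0 ≤ a ∧ (∀ c κ : ℝ, 1 ≤ c →
      ((∀ (H : Type) [NormedAddCommGroup H] [InnerProductSpace ℂ H] [CompleteSpace H]
        (π : Γ →* (H →L[ℂ] H)ˣ), Bdd π c → Sim π κ) ↔ c ^ a ≤ κ)) ∧
      (∀ K : ℝ, DistanceBound Γ K ↔ a / 2 ≤ K) ∧
      (Amenable Γ ↔ a < 3) ∧ (Amenable Γ ↔ a ≤ 2) := by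
  obtain ⟨a, ha, hpow⟩ := power_sim Λ φ hφ hU
  have hdist : ∀ K : ℝ, DistanceBound Γ K ↔ a / 2 ≤ K := by
    intro K
    constructor
    · intro h
      have h1 := (exponent_iff K h.nonneg).1 h 2 (by norm_num)
      have h2 := (hpow 2 ((2 : ℝ) ^ (2 * K)) (by norm_num)).1 (fun H _ _ _ π hπ =>
        h1 H π (hU 2 H π hπ) hπ)
      have h3 := (Real.rpow_le_rpow_left_iff (show (1 : ℝ) < 2 by norm_num)).1 h2
      linarith
    · intro h
      have hK : 0 ≤ K := le_trans (by positivity) h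
      apply (exponent_iff K hK).2
      intro c hc H _ _ _ π _ hπ
      apply (hpow c (c ^ (2 * K)) hc).2 _ H π hπ
      exact Real.rpow_le_rpow_of_exponent_le hc (by linarith)
  have h12 : Amenable Γ → a ≤ 2 := by
    intro h
    have := (hdist 1).1 (amenable_dist h)
    linarith
  have h31 : a < 3 → Amenable Γ := by
    intro h
    exact amenable_of_dist (a / 2) (by linarith) ((hdist (a / 2)).2 le_rfl)
  refine ⟨a, ha, hpow, hdist, ⟨fun h => ?_, h31⟩, ⟨h12, fun h => h31 (by linarith)⟩⟩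
  have := h12 h
  linarith

end Pool.Agent.TH278.DX
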